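import Mathlib
import Pool.Agent.H766R2.LittlewoodPoly

/-!
# MP_efea25_an, Q2: Littlewood polynomials with at least `c √n` distinct zeros in `(0,1)`
-/

open Polynomial

namespace Pool.Agent.Results.MP_efea25_an.RealZerosSqrt

/-- The Littlewood polynomials of degree `n`: all coefficients `a_0, …, a_n` are `±1`. -/
def littlewood (n : ℕ) : Set ℝ[X] :=
  {p | p.natDegree = n ∧ ∀ j ≤ n, p.coeff j = 1 ∨ p.coeff j = -1}

/-- The number of zeros of `p` in `[-1,1]`, counted with multiplicity. -/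
noncomputable def zerosWithMult (p : ℝ[X]) : ℕ :=
  Multiset.card (p.roots.filter (fun x => -1 ≤ x ∧ x ≤ 1))

/-- The number of distinct zeros of `p` in the open interval `(0,1)`. -/
noncomputable def distinctZeros (p : ℝ[X]) : ℕ :=
  Set.ncard {x : ℝ | 0 < x ∧ x < 1 ∧ p.eval x = 0}

lemma littlewood_ne_zero {n : ℕ} {p : ℝ[X]} (hp : p ∈ littlewood n) : p ≠ 0 := by
  rintro rfl
  rcases hp.2 0 (by omega) with h | h <;> simp at h

lemma zeroSet_finite {p : ℝ[X]} (hp : p ≠ 0) : {x : ℝ | 0 < x ∧ x < 1 ∧ p.eval x = 0}.Finite := by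
  apply (Multiset.finite_toSet p.roots).subset
  intro x hx
  exact (mem_roots hp).mpr hx.2.2

lemma distinct_le_mult {p : ℝ[X]} (hp : p ≠ 0) : distinctZeros p ≤ zerosWithMult p := by
  unfold distinctZeros zerosWithMult
  rw [Set.ncard_eq_toFinset_card _ (zeroSet_finite hp)]
  have h : (zeroSet_finite hp).toFinset.val ≤ p.roots.filter (fun x => -1 ≤ x ∧ x ≤ 1) := by
    rw [Multiset.le_iff_subset (Finset.nodup _)]
    intro x hx
    have hx' : 0 < x ∧ x < 1 ∧ p.eval x = 0 := by simpa using hx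
    rw [Multiset.mem_filter]
    exact ⟨(mem_roots hp).mpr hx'.2.2, by linarith [hx'.1], hx'.2.1.le⟩
  exact Multiset.card_le_card h

lemma sqrt_bound : ∃ c : ℝ, 0 < c ∧ ∀ n : ℕ, 9 ≤ n → ∃ p ∈ littlewood n,
    c * Real.sqrt n ≤ (distinctZeros p : ℝ) := by
  refine ⟨1 / 230400, by norm_num, ?_⟩
  intro n hn
  have hn9 : (9 : ℝ) ≤ n := by exact_mod_cast hn
  have h3 : (3 : ℝ) ≤ Real.sqrt n := by
    apply Real.le_sqrt_of_sq_le; linarith
  obtain ⟨P, h1, h2, s, hs1, hs2⟩ := H766R2.littlewood_zeros n (by omega) (1 / Real.sqrt n) le_rfl (by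
    apply one_div_le_one_div_of_le (by norm_num) h3)
  have hP : P ∈ littlewood n := ⟨h1, h2⟩
  refine ⟨P, hP, ?_⟩
  have h4 : (1 / 230400 : ℝ) * Real.sqrt n = 1 / 230400 / (1 / Real.sqrt n) := by
    field_simp
  rw [h4]
  refine hs1.trans ?_
  have : s.card ≤ distinctZeros P := by
    unfold distinctZeros
    rw [← Set.ncard_coe_finset s]
    apply Set.ncard_le_ncard _ (zeroSet_finite (littlewood_ne_zero hP))
    intro x hx
    obtain ⟨h5, h6, h7⟩ := hs2 x hx
    refine ⟨h5, ?_, h7⟩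
    have : 0 < 1 / Real.sqrt n := by positivity
    linarith
  exact_mod_cast this

/-- **Q2 of MP_efea25_an is false**, in a strong form. There is `c > 0` such that for every `n ≥ 9`
some Littlewood polynomial of degree `n` has at least `c √n` distinct zeros in `(0,1)` (the order
`√n` is best possible, by a known upper bound); consequently no bound `c log n` for the number of
zeros in `[-1,1]` of all Littlewood polynomials of degree `n` can hold. -/
theorem result :
    (∃ c : ℝ, 0 < c ∧ ∀ n : ℕ, 9 ≤ n → ∃ p ∈ littlewood n,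
      c * Real.sqrt n ≤ (distinctZeros p : ℝ)) ∧
    ¬ (∃ c : ℝ, 0 < c ∧ ∀ n : ℕ, 2 ≤ n → ∀ p ∈ littlewood n,
      (zerosWithMult p : ℝ) ≤ c * Real.log n) := by
  refine ⟨sqrt_bound, ?_⟩
  rintro ⟨c, hc, h⟩
  obtain ⟨c', hc', h'⟩ := sqrt_bound
  have hlim : Filter.Tendsto (fun x : ℝ => Real.log x / x ^ (1 / 2 : ℝ)) Filter.atTop (nhds 0) := by
    have := isLittleO_log_rpow_atTop (r := 1 / 2) (by norm_num)
    exact this.tendsto_div_nhds_zero
  have hlim2 := hlim.comp (tendsto_natCast_atTop_atTop (R := ℝ))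
  have hev : ∀ᶠ n : ℕ in Filter.atTop, Real.log n / (n : ℝ) ^ (1 / 2 : ℝ) < c' / c := by
    exact hlim2.eventually (gt_mem_nhds (by positivity))
  obtain ⟨N, hN⟩ := Filter.eventually_atTop.mp hev
  set n := max N 9 with hn
  have hn9 : 9 ≤ n := le_max_right _ _
  have h1 := hN n (le_max_left _ _)
  obtain ⟨p, hp, h2⟩ := h' n hn9
  have h3 := h n (by omega) p hp
  have h4 : (distinctZeros p : ℝ) ≤ (zerosWithMult p : ℝ) := by
    exact_mod_cast distinct_le_mult (littlewood_ne_zero hp)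
  have hnpos : (0 : ℝ) < n := by
    have : 0 < n := by omega
    exact_mod_cast this
  rw [← Real.sqrt_eq_rpow, div_lt_div_iff₀ (Real.sqrt_pos.mpr hnpos) hc] at h1
  nlinarith

end Pool.Agent.Results.MP_efea25_an.RealZerosSqrt
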